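import Pool.Agent.Q108.OCP.Cliques

/-!
# MP_de1832_co, Q2: a triangle graph that is not normal

Let `H` be the triangle-free graph with the nine vertices `a₁, a₂, a₃, b₁, b₂, b₃, b₄, x, y` whose
17 edges are the twelve edges `aᵢbⱼ` and `xb₁, xb₂, yb₃, yb₄, xy`. The graph `G` has the edges of
`H` as vertices; two of them are adjacent when they are disjoint.
-/

set_option autoImplicit false

namespace Pool.Agent.Results.MP_de1832_co.NotNormal

open SimpleGraph Q108.OCP

/-- A maximal stable set. -/
def IsMaximalStable {V : Type} (G : SimpleGraph V) (S : Set V) : Prop :=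
  G.IsIndepSet S ∧ ∀ T : Set V, G.IsIndepSet T → S ⊆ T → T = S

/-- A triangle graph: for every maximal stable set `S` and every edge `uv` outside `S` some `w ∈ S`
is adjacent to both `u` and `v`. -/
def IsTriangleGraph {V : Type} (G : SimpleGraph V) : Prop :=
  ∀ S : Set V, IsMaximalStable G S → ∀ u v : V, G.Adj u v → u ∉ S → v ∉ S →
    ∃ w ∈ S, G.Adj w u ∧ G.Adj w v

/-- A normal graph: there are a family of cliques and a family of stable sets, both covering the
vertex set, such that every member of the first meets every member of the second. -/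
def IsNormalGraph {V : Type} (G : SimpleGraph V) : Prop :=
  ∃ 𝒞 𝒮 : Set (Set V), (∀ C ∈ 𝒞, G.IsClique C) ∧ (∀ S ∈ 𝒮, G.IsIndepSet S) ∧
    (∀ v, ∃ C ∈ 𝒞, v ∈ C) ∧ (∀ v, ∃ S ∈ 𝒮, v ∈ S) ∧
    ∀ C ∈ 𝒞, ∀ S ∈ 𝒮, (C ∩ S).Nonempty

/-- adjacency table: bit `17 * u + v` -/
def tab : ℕ := 31075935797943340927119786366060353987420506153252910215053054739727207396609028648672

/-- adjacency table of the complement -/
def cotab : ℕ := 466245403467016203855293679924109166715454551667548428540046672625591022980931184627998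

def adj (v : ℕ) : ℕ := (tab >>> (17 * v)) &&& 131071

def coadj (v : ℕ) : ℕ := (cotab >>> (17 * v)) &&& 131071

/-- the stars of the nine vertices of `H` -/
def starL : List ℕ := [15, 240, 3840, 4369, 8738, 17476, 34952, 77824, 114688]

/-- the maximal cliques with the masks of the vertices of `H` that they cover -/
def mcL : List (ℕ × ℕ) :=
  [(4680, 255), (4740, 255), (5160, 255), (5250, 255), (6180, 255), (6210, 255), (8520, 255),
   (8580, 255), (9240, 255), (9345, 255), (10260, 255), (10305, 255), (16680, 383), (16770, 383),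
   (16920, 383), (17025, 383), (18450, 383), (18465, 383), (20520, 507), (20610, 507), (21000,
   509), (21120, 510), (22530, 509), (22560, 510), (24600, 507), (24705, 507), (24840, 509),
   (24960, 510), (26625, 509), (26640, 510), (33060, 383), (33090, 383), (33300, 383), (33345,
   383), (33810, 383), (33825, 383), (36900, 507), (36930, 507), (37380, 509), (37440, 510),
   (37890, 509), (37920, 510), (40980, 507), (41025, 507), (41220, 509), (41280, 510), (41985,
   509), (42000, 510), (65828, 447), (65832, 479), (65858, 447), (65864, 495), (65922, 479),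
   (65924, 495), (66068, 447), (66072, 479), (66113, 447), (66120, 503), (66177, 479), (66180,
   503), (66578, 447), (66584, 495), (66593, 447), (66600, 503), (66689, 495), (66690, 503),
   (67602, 479), (67604, 495), (67617, 479), (67620, 503), (67649, 495), (67650, 503)]

/-- The graph. -/
def G : SimpleGraph (Fin 17) where
  Adj u v := (adj u).testBit v = true
  symm := by
    have h : ∀ u v : Fin 17, (adj u).testBit v = true → (adj v).testBit u = true := by
      decide +kernel
    exact ⟨fun u v => h u v⟩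
  loopless := by
    have h : ∀ u : Fin 17, ¬ (adj u).testBit u = true := by decide +kernel
    exact ⟨h⟩

theorem G_adj (u v : Fin 17) : G.Adj u v ↔ (adj u).testBit v = true := Iff.rfl

theorem Gc_adj (u v : Fin 17) : Gᶜ.Adj u v ↔ (coadj u).testBit v = true := by
  have h : ∀ u v : Fin 17, (u ≠ v ∧ ¬ (adj u).testBit v = true) ↔ (coadj u).testBit v = true := by
    decide +kernel
  rw [compl_adj, G_adj]
  exact h u v

theorem irrG : ∀ w, (adj w).testBit w = false := by
  intro w
  by_cases h : w < 17
  · have h1 : ∀ u : Fin 17, (adj u).testBit u = false := by decide +kernel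
    exact h1 ⟨w, h⟩
  · unfold adj
    rw [Nat.testBit_land, show (131071 : ℕ) = 2 ^ 17 - 1 by norm_num, Nat.testBit_two_pow_sub_one]
    simp [h]

theorem irrGc : ∀ w, (coadj w).testBit w = false := by
  intro w
  by_cases h : w < 17
  · have h1 : ∀ u : Fin 17, (coadj u).testBit u = false := by decide +kernel
    exact h1 ⟨w, h⟩
  · unfold coadj
    rw [Nat.testBit_land, show (131071 : ℕ) = 2 ^ 17 - 1 by norm_num, Nat.testBit_two_pow_sub_one]
    simp [h]

theorem mask_mem (A : ℕ → ℕ) (H : SimpleGraph (Fin 17)) (L : List ℕ)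
    (hA : ∀ u v : Fin 17, H.Adj u v ↔ (A u).testBit v = true)
    (hirr : ∀ w, (A w).testBit w = false)
    (hL : enumC A (fun K => L.contains K) 17 0 0 131071 = true)
    (K : Set (Fin 17)) (hK : H.IsClique K) (hmax : ∀ K' : Set (Fin 17), H.IsClique K' → K ⊆ K' → K' = K) :
    ∃ κ ∈ L, ∀ i : Fin 17, κ.testBit i.val = true ↔ i ∈ K := by
  classical
  obtain ⟨κ, hκ⟩ : ∃ κ : ℕ, κ = Nat.ofBits fun i : Fin 17 => decide (i ∈ K) := ⟨_, rfl⟩
  have hbit : ∀ i : Fin 17, κ.testBit i.val = true ↔ i ∈ K := by
    intro i
    rw [hκ, Nat.testBit_ofBits_lt _ _ i.isLt]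
    simp
  have hlt : ∀ w, κ.testBit w = true → w < 17 := by
    intro w hw
    by_contra hge
    have h1 : κ < 2 ^ w :=
      lt_of_lt_of_le (hκ ▸ Nat.ofBits_lt_two_pow _) (Nat.pow_le_pow_right (by norm_num) (by omega))
    rw [Nat.testBit_lt_two_pow h1] at hw
    exact absurd hw (by decide)
  refine ⟨κ, ?_, hbit⟩
  have hs := enumC_sound (N := 17) A (fun K => L.contains K) κ hlt hirr ?_ ?_ 17 0 0 131071
    rfl ?_ ?_ hL
  · simpa using hs
  · intro x y hx hy hxy
    have hx' := hlt x hx
    have hy' := hlt y hy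
    have h1 := (hbit ⟨x, hx'⟩).1 hx
    have h2 := (hbit ⟨y, hy'⟩).1 hy
    exact (hA ⟨x, hx'⟩ ⟨y, hy'⟩).1 (hK h1 h2 (fun h => hxy (congrArg Fin.val h)))
  · intro w hw hwκ
    have hwK : (⟨w, hw⟩ : Fin 17) ∉ K := fun h => by
      rw [(hbit ⟨w, hw⟩).2 h] at hwκ
      exact absurd hwκ (by decide)
    by_contra hcon
    push Not at hcon
    have hcl : H.IsClique (insert (⟨w, hw⟩ : Fin 17) K) := by
      rw [isClique_insert]
      refine ⟨hK, fun b hb _ => ?_⟩
      have h1 := hcon b.val ((hbit b).2 hb)
      exact ((hA b ⟨w, hw⟩).2 (by simpa using h1)).symm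
    have h2 := hmax _ hcl (Set.subset_insert _ _)
    exact hwK (h2 ▸ Set.mem_insert _ _)
  · intro w
    simp
  · intro w
    rw [show (131071 : ℕ) = 2 ^ 17 - 1 by norm_num, Nat.testBit_two_pow_sub_one]
    simp

theorem extend_max (H : SimpleGraph (Fin 17)) (K : Set (Fin 17)) (hK : H.IsClique K) :
    ∃ T, K ⊆ T ∧ H.IsClique T ∧ ∀ K' : Set (Fin 17), H.IsClique K' → T ⊆ K' → K' = T := by
  obtain ⟨T, h1, h2⟩ :=
    (Set.toFinite {T : Set (Fin 17) | H.IsClique T}).exists_le_maximal hK
  refine ⟨T, h1, h2.prop, fun T' hT' h3 => ?_⟩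
  exact Set.Subset.antisymm (h2.le_of_ge hT' h3) h3

theorem enumG : enumC adj (fun K => (mcL.map Prod.fst).contains K) 17 0 0 131071 = true := by
  decide +kernel

theorem enumGc : enumC coadj (fun K => starL.contains K) 17 0 0 131071 = true := by
  decide +kernel

theorem tri_check : ∀ σ ∈ starL, ∀ u v : Fin 17, (adj u).testBit v = true →
    σ.testBit u = false → σ.testBit v = false →
    ∃ w : Fin 17, σ.testBit w = true ∧ (adj w).testBit u = true ∧ (adj w).testBit v = true := by
  decide +kernel

theorem G_triangle : IsTriangleGraph G := by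
  intro S hS u v huv hu hv
  have h1 : Gᶜ.IsClique S := by rw [isClique_compl]; exact hS.1
  obtain ⟨σ, hσ, hb⟩ := mask_mem coadj Gᶜ starL Gc_adj irrGc enumGc S h1
    (fun K' hK' hsub => hS.2 K' (by rw [isClique_compl] at hK'; exact hK') hsub)
  obtain ⟨w, h2, h3, h4⟩ := tri_check σ hσ u v huv
    (by rw [Bool.eq_false_iff]; exact fun h => hu ((hb u).1 h))
    (by rw [Bool.eq_false_iff]; exact fun h => hv ((hb v).1 h))
  exact ⟨w, (hb w).1 h2, h3, h4⟩

/-- the star of the vertex `x` of `H` -/
def star (x : ℕ) : ℕ := starL.getD x 0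

/-- the union of the stars of the members of the mask `X` below `k` -/
def coverTo (X : ℕ) : ℕ → ℕ
  | 0 => 0
  | k + 1 => if X.testBit k then coverTo X k ||| star k else coverTo X k

def cover (X : ℕ) : ℕ := coverTo X 9

/-- table: an edge which is in no matching covering the vertices of the mask `X` -/
def cert : ℕ := 59614700157116452475772755763535385081516053471333565384354356335164625229547040985202041125826374254204348147256638230595615913454744201527952069960877237505640750168570241796806404900143999637885684975568878237436236914244419859977952157235199381211526459011937157420012648883270671234634238360513357022971618282034540846301265035694870517523470380877910943433691196025518211378522189779655703011494540510694657113683215209893569269105236832386703105732895393010849190396842934062763341158617821065195522169011296188319201486580780061044077768848684398679206791348488808752027582632192322918983564966145370102377909223411246782532489425137253123944962588622468771586431918663237869522468791505041743754261602499651094519181721854299458139411024131889119306952212480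

def chk (X : ℕ) : Bool :=
  (cover X != 131071) ||
    mcL.all fun p => !(p.1.testBit ((cert >>> (5 * X)) &&& 31)) || (X &&& p.2 != X)

theorem chk_all : ∀ X : Fin 512, chk X = true := by decide +kernel

theorem cert_lt : ∀ X : Fin 512, (cert >>> (5 * X.val)) &&& 31 < 17 := by decide +kernel

theorem cov_check : ∀ p ∈ mcL, ∀ x : Fin 9, (∃ i : Fin 17, p.1.testBit i = true ∧
    (star x).testBit i = true) → p.2.testBit x = true := by decide +kernel

theorem starL_get : ∀ σ ∈ starL, ∃ x : Fin 9, star x = σ := by decide +kernel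

theorem cover_spec (X : ℕ) (hX : ∀ i : Fin 17, ∃ x : Fin 9, X.testBit x = true ∧
    (star x).testBit i = true) : cover X = 131071 := by
  have h0 : ∀ (w k : ℕ), (coverTo X k).testBit w = true ↔ ∃ x, x < k ∧ X.testBit x = true ∧
      (star x).testBit w = true := by
    intro w k
    induction k with
    | zero => simp [coverTo]
    | succ k ih =>
      rw [coverTo]
      split_ifs with hk
      · rw [Nat.testBit_or, Bool.or_eq_true, ih]
        constructor
        · rintro (⟨x, h1, h2, h3⟩ | h)
          · exact ⟨x, by omega, h2, h3⟩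
          · exact ⟨k, by omega, hk, h⟩
        · rintro ⟨x, h1, h2, h3⟩
          rcases Nat.lt_succ_iff_lt_or_eq.1 h1 with h4 | h4
          · exact Or.inl ⟨x, h4, h2, h3⟩
          · exact Or.inr (h4 ▸ h3)
      · rw [ih]
        constructor
        · rintro ⟨x, h1, h2, h3⟩
          exact ⟨x, by omega, h2, h3⟩
        · rintro ⟨x, h1, h2, h3⟩
          rcases Nat.lt_succ_iff_lt_or_eq.1 h1 with h4 | h4
          · exact ⟨x, h4, h2, h3⟩
          · rw [h4] at h2; exact absurd h2 hk
  have h1 : ∀ w, (cover X).testBit w = true ↔ ∃ x : Fin 9, X.testBit x = true ∧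
      (star x).testBit w = true := by
    intro w
    rw [cover, h0]
    constructor
    · rintro ⟨x, h1, h2⟩
      exact ⟨⟨x, h1⟩, h2⟩
    · rintro ⟨x, h2⟩
      exact ⟨x, x.2, h2⟩
  have hs : ∀ x : Fin 9, star x < 2 ^ 17 := by decide +kernel
  refine Nat.eq_of_testBit_eq fun w => ?_
  rw [show (131071 : ℕ) = 2 ^ 17 - 1 by norm_num, Nat.testBit_two_pow_sub_one]
  by_cases hw : w < 17
  · simp only [hw, decide_true]
    exact (h1 w).2 (hX ⟨w, hw⟩)
  · simp only [hw, decide_false]
    rw [Bool.eq_false_iff]
    intro h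
    obtain ⟨x, -, h2⟩ := (h1 w).1 h
    have h3 : star x < 2 ^ w := lt_of_lt_of_le (hs x) (Nat.pow_le_pow_right (by norm_num) (by omega))
    rw [Nat.testBit_lt_two_pow h3] at h2
    exact absurd h2 (by decide)

theorem G_not_normal : ¬ IsNormalGraph G := by
  classical
  rintro ⟨𝒞, 𝒮, hC, hS, hcC, hcS, hmeet⟩
  -- the stars that contain a member of `𝒮`
  obtain ⟨X, hXlt, hX⟩ : ∃ X : ℕ, X < 512 ∧ ∀ x : Fin 9, X.testBit x.val = true ↔
      ∃ S ∈ 𝒮, ∀ i ∈ S, (star x).testBit (i : Fin 17).val = true := by
    refine ⟨Nat.ofBits fun x : Fin 9 => decide (∃ S ∈ 𝒮, ∀ i ∈ S, (star x).testBit (i : Fin 17).val = true),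
      Nat.ofBits_lt_two_pow _, fun x => ?_⟩
    rw [Nat.testBit_ofBits_lt _ _ x.isLt]
    simp
  have hcov : cover X = 131071 := by
    refine cover_spec X fun i => ?_
    obtain ⟨S, hSS, hiS⟩ := hcS i
    have h1 : Gᶜ.IsClique S := by rw [isClique_compl]; exact hS S hSS
    obtain ⟨T, h2, h3, h4⟩ := extend_max Gᶜ S h1
    obtain ⟨σ, hσ, hb⟩ := mask_mem coadj Gᶜ starL Gc_adj irrGc enumGc T h3 h4
    obtain ⟨x, hx⟩ := starL_get σ hσ
    refine ⟨x, (hX x).2 ⟨S, hSS, fun j hj => ?_⟩, ?_⟩
    · rw [hx]; exact (hb j).2 (h2 hj)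
    · rw [hx]; exact (hb i).2 (h2 hiS)
  have h1 := chk_all ⟨X, hXlt⟩
  have h2 := cert_lt ⟨X, hXlt⟩
  rw [chk] at h1
  simp only [hcov, bne_self_eq_false, Bool.false_or] at h1
  rw [List.all_eq_true] at h1
  obtain ⟨C, hCC, hvC⟩ := hcC ⟨_, h2⟩
  obtain ⟨K, h3, h4, h5⟩ := extend_max G C (hC C hCC)
  obtain ⟨κ, hκ, hb⟩ := mask_mem adj G _ G_adj irrG enumG K h4 h5
  rw [List.mem_map] at hκ
  obtain ⟨p, hp, rfl⟩ := hκ
  have h6 := h1 p hp
  rw [Bool.or_eq_true] at h6
  rcases h6 with h6 | h6
  · rw [Bool.not_eq_true'] at h6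
    have h7 := (hb ⟨_, h2⟩).2 (h3 hvC)
    rw [h6] at h7
    exact absurd h7 (by decide)
  · rw [bne_iff_ne] at h6
    apply h6
    refine Nat.eq_of_testBit_eq fun w => ?_
    rw [Nat.testBit_land]
    by_cases hw : X.testBit w = true
    · have hw9 : w < 9 := by
        by_contra hge
        have h7 : X < 2 ^ w := lt_of_lt_of_le hXlt (by
          rw [show (512 : ℕ) = 2 ^ 9 by norm_num]
          exact Nat.pow_le_pow_right (by norm_num) (by omega))
        rw [Nat.testBit_lt_two_pow h7] at hw
        exact absurd hw (by decide)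
      obtain ⟨S, hSS, hsub⟩ := (hX ⟨w, hw9⟩).1 hw
      obtain ⟨i, hiC, hiS⟩ := hmeet C hCC S hSS
      have h8 := cov_check p hp ⟨w, hw9⟩ ⟨i, (hb i).2 (h3 hiC), hsub i hiS⟩
      simp only at h8
      rw [hw, h8]
      rfl
    · have hw' : X.testBit w = false := by simpa using hw
      rw [hw']
      rfl

/-- Q2 has a negative answer: it is not true that every (finite) triangle graph is normal. -/
theorem result : ¬ ∀ (V : Type) [Fintype V] (G : SimpleGraph V), IsTriangleGraph G →
    IsNormalGraph G :=
  fun h => G_not_normal (h (Fin 17) G G_triangle)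

end Pool.Agent.Results.MP_de1832_co.NotNormal
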